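import Pool.Agent.Lib.B5G.Main

/-! Finite data: canonical label patterns, nominal base tilings, Euler circuits. -/

set_option autoImplicit false

namespace Pool.Agent.Lib.B5.G

def can : Fin 9 → Fin 5 → ZMod 5 := ![![0, 0, 0, 0, 0],
  ![0, 0, 0, 0, 1],
  ![0, 0, 0, 1, 1],
  ![0, 0, 0, 1, 2],
  ![0, 0, 0, 1, 4],
  ![0, 0, 1, 1, 2],
  ![0, 1, 1, 4, 4],
  ![0, 0, 1, 2, 3],
  ![0, 1, 2, 3, 4]]

def wit : List (Fin 9 × ZMod 5 × ZMod 5 × (Fin 5 → Fin 5)) := [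
  (0, 1, 0, ![0, 1, 2, 3, 4]), (1, 1, 0, ![0, 1, 2, 3, 4]), (1, 2, 0, ![0, 1, 2, 3, 4]),
  (1, 3, 0, ![0, 1, 2, 3, 4]), (1, 4, 0, ![0, 1, 2, 3, 4]), (2, 1, 0, ![0, 1, 2, 3, 4]),
  (3, 1, 0, ![0, 1, 2, 3, 4]), (3, 3, 0, ![0, 1, 2, 4, 3]), (4, 1, 0, ![0, 1, 2, 3, 4]),
  (2, 2, 0, ![0, 1, 2, 3, 4]), (4, 2, 0, ![0, 1, 2, 3, 4]), (3, 2, 0, ![0, 1, 2, 3, 4]),
  (2, 3, 0, ![0, 1, 2, 3, 4]), (3, 4, 0, ![0, 1, 2, 4, 3]), (2, 4, 0, ![0, 1, 2, 3, 4]),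
  (2, 4, 1, ![2, 3, 4, 0, 1]), (5, 1, 0, ![0, 1, 2, 3, 4]), (6, 2, 3, ![4, 0, 1, 2, 3]),
  (5, 4, 1, ![2, 3, 0, 1, 4]), (6, 1, 1, ![2, 3, 4, 0, 1]), (7, 1, 0, ![0, 1, 2, 3, 4]),
  (7, 2, 0, ![0, 1, 3, 4, 2]), (5, 3, 0, ![0, 1, 3, 4, 2]), (7, 3, 0, ![0, 1, 3, 2, 4]),
  (5, 1, 4, ![3, 4, 0, 1, 2]), (2, 3, 2, ![2, 3, 4, 0, 1]), (5, 3, 2, ![2, 3, 0, 1, 4]),
  (5, 2, 0, ![0, 1, 2, 3, 4]), (5, 2, 3, ![3, 4, 0, 1, 2]), (7, 4, 0, ![0, 1, 4, 3, 2]),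
  (6, 2, 2, ![2, 3, 4, 0, 1]), (2, 2, 3, ![2, 3, 4, 0, 1]), (6, 1, 4, ![4, 0, 1, 2, 3]),
  (5, 4, 0, ![0, 1, 3, 4, 2]), (2, 1, 4, ![2, 3, 4, 0, 1]), (1, 4, 1, ![1, 2, 3, 4, 0]),
  (4, 1, 1, ![1, 2, 3, 4, 0]), (3, 2, 1, ![1, 2, 3, 4, 0]), (3, 4, 1, ![1, 2, 3, 0, 4]),
  (5, 4, 2, ![3, 4, 1, 2, 0]), (7, 2, 1, ![1, 2, 4, 0, 3]), (7, 3, 1, ![1, 2, 4, 3, 0]),
  (5, 2, 1, ![1, 2, 3, 4, 0]), (7, 4, 1, ![1, 2, 0, 4, 3]), (6, 1, 0, ![0, 1, 2, 3, 4]),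
  (3, 4, 2, ![2, 3, 4, 1, 0]), (7, 3, 2, ![2, 3, 0, 4, 1]), (7, 4, 2, ![2, 3, 1, 0, 4]),
  (7, 4, 3, ![3, 4, 2, 1, 0]), (8, 1, 0, ![0, 1, 2, 3, 4]), (7, 1, 4, ![3, 4, 0, 1, 2]),
  (4, 2, 3, ![2, 3, 4, 0, 1]), (7, 1, 3, ![2, 3, 4, 0, 1]), (7, 2, 4, ![3, 4, 1, 2, 0]),
  (3, 1, 4, ![2, 3, 4, 0, 1]), (1, 3, 2, ![1, 2, 3, 4, 0]), (3, 3, 2, ![1, 2, 3, 0, 4]),
  (4, 2, 2, ![1, 2, 3, 4, 0]), (6, 2, 0, ![0, 1, 2, 3, 4]), (7, 1, 2, ![1, 2, 3, 4, 0]),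
  (5, 3, 4, ![3, 4, 1, 2, 0]), (3, 2, 3, ![2, 3, 4, 0, 1]), (7, 2, 3, ![2, 3, 0, 1, 4]),
  (7, 3, 4, ![3, 4, 1, 0, 2]), (3, 3, 4, ![2, 3, 4, 1, 0]), (1, 2, 3, ![1, 2, 3, 4, 0]),
  (3, 1, 3, ![1, 2, 3, 4, 0]), (5, 1, 3, ![1, 2, 3, 4, 0]), (4, 1, 4, ![2, 3, 4, 0, 1]),
  (1, 1, 4, ![1, 2, 3, 4, 0]), (0, 1, 1, ![0, 1, 2, 3, 4]), (1, 1, 1, ![0, 1, 2, 3, 4]),
  (1, 2, 1, ![0, 1, 2, 3, 4]), (1, 3, 1, ![0, 1, 2, 3, 4]), (2, 1, 1, ![0, 1, 2, 3, 4]),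
  (3, 1, 1, ![0, 1, 2, 3, 4]), (3, 3, 1, ![0, 1, 2, 4, 3]), (2, 2, 1, ![0, 1, 2, 3, 4]),
  (4, 2, 1, ![0, 1, 2, 3, 4]), (2, 3, 1, ![0, 1, 2, 3, 4]), (2, 4, 2, ![2, 3, 4, 0, 1]),
  (5, 1, 1, ![0, 1, 2, 3, 4]), (6, 2, 4, ![4, 0, 1, 2, 3]), (6, 1, 2, ![2, 3, 4, 0, 1]),
  (7, 1, 1, ![0, 1, 2, 3, 4]), (5, 3, 1, ![0, 1, 3, 4, 2]), (2, 3, 3, ![2, 3, 4, 0, 1]),
  (5, 3, 3, ![2, 3, 0, 1, 4]), (5, 2, 4, ![3, 4, 0, 1, 2]), (2, 2, 4, ![2, 3, 4, 0, 1]),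
  (1, 4, 2, ![1, 2, 3, 4, 0]), (4, 1, 2, ![1, 2, 3, 4, 0]), (3, 2, 2, ![1, 2, 3, 4, 0]),
  (5, 4, 3, ![3, 4, 1, 2, 0]), (7, 2, 2, ![1, 2, 4, 0, 3]), (5, 2, 2, ![1, 2, 3, 4, 0]),
  (3, 4, 3, ![2, 3, 4, 1, 0]), (7, 3, 3, ![2, 3, 0, 4, 1]), (7, 4, 4, ![3, 4, 2, 1, 0]),
  (4, 2, 4, ![2, 3, 4, 0, 1]), (1, 3, 3, ![1, 2, 3, 4, 0]), (3, 3, 3, ![1, 2, 3, 0, 4]),
  (6, 2, 1, ![0, 1, 2, 3, 4]), (3, 2, 4, ![2, 3, 4, 0, 1]), (1, 2, 4, ![1, 2, 3, 4, 0]),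
  (0, 1, 2, ![0, 1, 2, 3, 4]), (1, 1, 2, ![0, 1, 2, 3, 4]), (1, 2, 2, ![0, 1, 2, 3, 4]),
  (2, 1, 2, ![0, 1, 2, 3, 4]), (3, 1, 2, ![0, 1, 2, 3, 4]), (2, 2, 2, ![0, 1, 2, 3, 4]),
  (2, 4, 3, ![2, 3, 4, 0, 1]), (5, 1, 2, ![0, 1, 2, 3, 4]), (6, 1, 3, ![2, 3, 4, 0, 1]),
  (2, 3, 4, ![2, 3, 4, 0, 1]), (1, 4, 3, ![1, 2, 3, 4, 0]), (4, 1, 3, ![1, 2, 3, 4, 0]),
  (5, 4, 4, ![3, 4, 1, 2, 0]), (3, 4, 4, ![2, 3, 4, 1, 0]), (1, 3, 4, ![1, 2, 3, 4, 0]),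
  (0, 1, 3, ![0, 1, 2, 3, 4]), (1, 1, 3, ![0, 1, 2, 3, 4]), (2, 1, 3, ![0, 1, 2, 3, 4]),
  (2, 4, 4, ![2, 3, 4, 0, 1]), (1, 4, 4, ![1, 2, 3, 4, 0]), (0, 1, 4, ![0, 1, 2, 3, 4])]

theorem bA7 : Base (can 7) (can 7) :=
  ⟨2, by decide, by decide, 1, ![0, 1, 0, 0, 0], ![0, 1, 0, 0, 0], ![false, false],
    ![false, true], ![(0, 0), (4, 1)], by decide +kernel, by decide +kernel⟩

theorem bR7 : Base (can 0) (can 7) :=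
  ⟨2, by decide, by decide, 1, ![0, 1, 0, 0, 0], ![0, 1, 0, 0, 0], ![true, true],
    ![false, true], ![(0, 0), (4, 1)], by decide +kernel, by decide +kernel⟩

theorem bA5 : Base (can 5) (can 5) :=
  ⟨2, by decide, by decide, 1, ![0, 1, 0, 1, 0], ![0, 1, 0, 1, 0], ![false, false],
    ![false, true], ![(0, 0), (4, 1)], by decide +kernel, by decide +kernel⟩

theorem bR5 : Base (can 0) (can 5) :=
  ⟨2, by decide, by decide, 1, ![0, 1, 0, 1, 0], ![0, 1, 0, 1, 0], ![true, true],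
    ![false, true], ![(0, 0), (4, 1)], by decide +kernel, by decide +kernel⟩

theorem bA2 : Base (can 2) (can 2) :=
  ⟨6, by decide, by decide, 1, ![0, 2, 4, 0, 3], ![0, 2, 4, 0, 3], ![false, false, false, false, false, false],
    ![false, false, true, false, true, true], ![(0, 0), (0, 1), (2, 2), (2, 1), (4, 0), (4, 5)], by decide +kernel, by decide +kernel⟩

theorem bR2 : Base (can 0) (can 2) :=
  ⟨6, by decide, by decide, 1, ![0, 2, 4, 0, 3], ![0, 2, 4, 0, 3], ![true, true, true, true, true, true],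
    ![false, false, true, false, true, true], ![(0, 0), (0, 1), (2, 2), (2, 1), (4, 0), (4, 5)], by decide +kernel, by decide +kernel⟩

theorem bA3 : Base (can 3) (can 3) :=
  ⟨6, by decide, by decide, 1, ![0, 1, 2, 0, 0], ![0, 1, 2, 1, 1], ![false, true, true, true, false, true],
    ![false, false, false, true, true, true], ![(0, 0), (0, 3), (1, 1), (3, 0), (4, 1), (4, 4)], by decide +kernel, by decide +kernel⟩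

theorem bR8 : Base (can 0) (can 8) :=
  ⟨1, by decide, by decide, 0, ![0, 0, 0, 0, 0], ![0, 0, 0, 0, 0], ![true],
    ![false], ![(0, 0)], by decide +kernel, by decide +kernel⟩

theorem bR6 : Base (can 0) (can 6) :=
  ⟨6, by decide, by decide, 1, ![0, 1, 2, 3, 4], ![0, 1, 2, 1, 2], ![false, true, true, true, true, true],
    ![false, false, false, true, false, true], ![(0, 0), (0, 5), (2, 1), (2, 0), (3, 1), (3, 0)], by decide +kernel, by decide +kernel⟩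

theorem bR4 : Base (can 0) (can 4) :=
  ⟨8, by decide, by decide, 3, ![0, 1, 2, 3, 4], ![0, 1, 2, 0, 6], ![false, true, false, true, true, true, true, false],
    ![false, false, false, true, false, false, true, false], ![(0, 0), (0, 5), (1, 0), (2, 6), (2, 1), (3, 2), (3, 7), (4, 4)], by decide +kernel, by decide +kernel⟩

theorem bR3 : Base (can 0) (can 3) :=
  ⟨6, by decide, by decide, 1, ![0, 1, 2, 3, 4], ![0, 1, 2, 0, 0], ![false, true, false, true, false, false],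
    ![false, false, false, true, false, false], ![(0, 0), (3, 5), (1, 5), (3, 4), (2, 5), (4, 0)], by decide +kernel, by decide +kernel⟩

theorem bR1 : Base (can 0) (can 1) :=
  ⟨8, by decide, by decide, 3, ![0, 1, 2, 3, 4], ![0, 1, 4, 5, 0], ![false, true, true, true, true, false, true, true],
    ![false, false, true, false, false, false, true, true], ![(0, 0), (4, 5), (1, 6), (4, 7), (1, 3), (2, 5), (3, 2), (3, 4)], by decide +kernel, by decide +kernel⟩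

theorem bB1 : Base (can 4) (fun j => 1 * can 6 j) :=
  ⟨3, by decide, by decide, 1, ![0, 1, 2, 0, 0], ![0, 0, 1, 0, 2], ![false, true, true],
    ![false, false, false], ![(0, 0), (2, 2), (3, 1)], by decide +kernel, by decide +kernel⟩

theorem bB2 : Base (can 4) (fun j => 2 * can 6 j) :=
  ⟨3, by decide, by decide, 1, ![0, 1, 2, 0, 0], ![0, 0, 1, 0, 2], ![false, false, true],
    ![false, false, false], ![(0, 0), (2, 1), (1, 2)], by decide +kernel, by decide +kernel⟩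

theorem bB3 : Base (can 4) (fun j => 3 * can 6 j) :=
  ⟨3, by decide, by decide, 1, ![0, 1, 2, 0, 0], ![0, 0, 1, 0, 2], ![false, true, false],
    ![false, false, false], ![(0, 0), (1, 1), (2, 2)], by decide +kernel, by decide +kernel⟩

theorem bB4 : Base (can 4) (fun j => 4 * can 6 j) :=
  ⟨3, by decide, by decide, 1, ![0, 1, 2, 0, 0], ![0, 0, 1, 0, 2], ![false, true, true],
    ![false, false, false], ![(0, 0), (2, 1), (3, 2)], by decide +kernel, by decide +kernel⟩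

theorem eA0 : Euler 10 2 (fun _ => can 0) :=
  ⟨![0, 0, 0, 0, 0, 1, 1, 1, 1, 1], ![0, 1, 2, 3, 4, 0, 1, 2, 3, 4], ![0, 0], ![0, 0],
    by decide +kernel, by decide +kernel⟩

theorem eA1 : Euler 10 2 (fun _ => can 1) :=
  ⟨![0, 0, 1, 1, 0, 1, 0, 1, 0, 1], ![0, 4, 4, 0, 1, 1, 2, 2, 3, 3], ![1, 4], ![0, 1],
    by decide +kernel, by decide +kernel⟩

theorem eA2 : Euler 10 2 (fun _ => can 2) :=
  ⟨![0, 0, 1, 0, 1, 1, 0, 1, 0, 1], ![0, 3, 3, 4, 4, 0, 1, 1, 2, 2], ![1, 4], ![0, 1],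
    by decide +kernel, by decide +kernel⟩

theorem eA3 : Euler 10 2 (fun _ => can 3) :=
  ⟨![0, 0, 0, 1, 1, 1, 0, 1, 0, 1], ![0, 3, 4, 4, 3, 0, 1, 1, 2, 2], ![1, 4], ![0, 1],
    by decide +kernel, by decide +kernel⟩

theorem eA4 : Euler 10 2 (fun _ => can 4) :=
  ⟨![0, 0, 1, 1, 0, 1, 0, 1, 1, 0], ![0, 3, 3, 0, 1, 1, 2, 2, 4, 4], ![1, 4], ![0, 1],
    by decide +kernel, by decide +kernel⟩

theorem eA5 : Euler 10 2 (fun _ => can 5) :=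
  ⟨![0, 0, 0, 1, 1, 0, 1, 1, 0, 1], ![0, 2, 4, 4, 2, 3, 3, 0, 1, 1], ![1, 4], ![0, 1],
    by decide +kernel, by decide +kernel⟩

theorem eA6 : Euler 10 2 (fun _ => can 6) :=
  ⟨![0, 0, 1, 0, 1, 1, 1, 0, 1, 0], ![0, 1, 1, 2, 2, 0, 3, 3, 4, 4], ![1, 4], ![0, 1],
    by decide +kernel, by decide +kernel⟩

theorem eA7 : Euler 10 2 (fun _ => can 7) :=
  ⟨![0, 0, 0, 0, 1, 1, 1, 1, 0, 1], ![0, 2, 3, 4, 4, 3, 2, 0, 1, 1], ![1, 4], ![0, 1],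
    by decide +kernel, by decide +kernel⟩

theorem eA8 : Euler 10 2 (fun _ => can 8) :=
  ⟨![0, 1, 0, 1, 0, 1, 0, 1, 0, 1], ![0, 0, 1, 1, 2, 2, 3, 3, 4, 4], ![0, 1], ![0, 0],
    by decide +kernel, by decide +kernel⟩

theorem eB1 : Euler 10 2 ![can 4, fun j => 1 * can 6 j] :=
  ⟨![0, 0, 1, 0, 0, 1, 1, 0, 1, 1], ![0, 3, 0, 4, 1, 3, 1, 2, 4, 2], ![1, 2], ![0, 2],
    by decide +kernel, by decide +kernel⟩

theorem eB2 : Euler 10 2 ![can 4, fun j => 2 * can 6 j] :=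
  ⟨![0, 0, 1, 0, 1, 0, 0, 1, 1, 1], ![0, 3, 3, 1, 1, 4, 2, 2, 0, 4], ![1, 3], ![0, 4],
    by decide +kernel, by decide +kernel⟩

theorem eB3 : Euler 10 2 ![can 4, fun j => 3 * can 6 j] :=
  ⟨![0, 0, 1, 0, 1, 0, 0, 1, 1, 1], ![0, 3, 1, 1, 3, 4, 2, 4, 0, 2], ![1, 3], ![0, 4],
    by decide +kernel, by decide +kernel⟩

theorem eB4 : Euler 10 2 ![can 4, fun j => 4 * can 6 j] :=
  ⟨![0, 0, 1, 0, 0, 1, 1, 0, 1, 1], ![0, 3, 0, 4, 1, 1, 3, 2, 2, 4], ![1, 2], ![0, 2],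
    by decide +kernel, by decide +kernel⟩

theorem eR : Euler 5 1 (fun _ => can 0) :=
  ⟨fun _ => 0, ![0, 1, 2, 3, 4], ![0], ![0], by decide +kernel, by decide +kernel⟩

theorem wit_ok : ∀ a b c d e : ZMod 5, a.val ≤ b.val → b.val ≤ c.val → c.val ≤ d.val → d.val ≤ e.val →
    ∃ w ∈ wit, (∀ j, ![a, b, c, d, e] (w.2.2.2 j) = w.2.1 * can w.1 j + w.2.2.1) ∧ w.2.1 ≠ 0 ∧
      Function.Injective w.2.2.2 := by
  decide +kernel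

end Pool.Agent.Lib.B5.G
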