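import Mathlib

/-! A quantitative Kronecker theorem for eight integers without small relations. -/

set_option autoImplicit false

namespace Pool.Agent.Lib.B5.G

open Complex

theorem int_exp (w : ℤ) : ∫ x in (0 : ℝ)..1, cexp (2 * Real.pi * I * w * x) = if w = 0 then 1 else 0 := by
  split_ifs with h
  · simp [h]
  · have hc : (2 * Real.pi * I * w : ℂ) ≠ 0 := by simp [h, Real.pi_ne_zero]
    rw [integral_exp_mul_complex hc]
    have : cexp (2 * Real.pi * I * w * (1 : ℝ)) = 1 := by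
      rw [← exp_int_mul_two_pi_mul_I w]; congr 1; push_cast; ring
    rw [this]; simp

theorem norm_sq_one_add (y : ℝ) :
    ‖1 + cexp (2 * Real.pi * I * y)‖ ^ 2 = 2 + 2 * Real.cos (2 * Real.pi * y) := by
  have : (2 * Real.pi * I * y : ℂ) = ((2 * Real.pi * y : ℝ) : ℂ) * I := by push_cast; ring
  rw [this, Complex.sq_norm, normSq_apply]
  simp only [add_re, one_re, exp_ofReal_mul_I_re, add_im, one_im, exp_ofReal_mul_I_im]
  nlinarith [Real.sin_sq_add_cos_sq (2 * Real.pi * y)]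

theorem far_bound (y : ℝ) (h : ∀ n : ℤ, 1 / 640 < |y - n|) :
    ‖1 + cexp (2 * Real.pi * I * y)‖ ^ 2 ≤ 4 * (1 - 1 / 102400) := by
  rw [norm_sq_one_add]
  have h1 := h (round y)
  have h2 := abs_sub_round y
  set θ := y - round y with hθ
  have e : Real.cos (2 * Real.pi * y) = Real.cos (2 * Real.pi * θ) := by
    rw [← Real.cos_sub_int_mul_two_pi _ (round y)]; congr 1; rw [hθ]; ring
  have hpi := Real.pi_pos
  have h3 : |2 * Real.pi * θ| ≤ Real.pi := by
    rw [abs_mul, abs_of_pos (by positivity)]; nlinarith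
  have h4 := Real.cos_le_one_sub_mul_cos_sq h3
  have h5 : 2 / Real.pi ^ 2 * (2 * Real.pi * θ) ^ 2 = 8 * θ ^ 2 := by field_simp; ring
  have h6 : (1 / 640 : ℝ) ^ 2 ≤ θ ^ 2 := by rw [← sq_abs θ]; gcongr
  rw [e]; nlinarith

theorem kron_aux {ι : Type} [Fintype ι] [DecidableEq ι] (hι : Fintype.card ι = 8) (n : ℕ)
    (hn4 : 4 ≤ n) (hn : (1 - 1 / 102400 : ℝ) ^ n * n ^ 8 ≤ 1) (v : ι → ℤ)
    (hv : ∀ k : ι → ℤ, (∀ i, |k i| ≤ n) → ∑ i, k i * v i = 0 → k = 0) (p : ι → ℝ) :
    ∃ α : ℝ, ∀ i, ∃ q : ℤ, |α * v i - p i - q| ≤ 1 / 640 := by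
  by_contra hcon
  push Not at hcon
  let G : ℝ → ℂ := fun α => (∏ i, (1 + cexp (2 * Real.pi * I * ((α * v i - p i : ℝ) : ℂ))) ^ (2 * n)) *
    cexp (2 * Real.pi * I * ((-∑ i, n * v i : ℤ) : ℂ) * α)
  have hb : ∀ α, ‖G α‖ ≤ (4 ^ n) ^ 8 * (1 - 1 / 102400) ^ n := fun α => by
    obtain ⟨i, hi⟩ := hcon α
    have e1 : ‖cexp (2 * Real.pi * I * ((-∑ i, n * v i : ℤ) : ℂ) * α)‖ = 1 := by
      rw [← norm_exp_ofReal_mul_I (2 * Real.pi * ((-∑ i, n * v i : ℤ) : ℝ) * α)]
      congr 2; push_cast; ring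
    simp only [G, norm_mul, e1, mul_one, norm_prod, norm_pow, pow_mul]
    rw [← Finset.mul_prod_erase _ _ (Finset.mem_univ i)]
    have h1 : (‖1 + cexp (2 * Real.pi * I * ((α * v i - p i : ℝ) : ℂ))‖ ^ 2) ^ n ≤
        (4 * (1 - 1 / 102400)) ^ n := by
      gcongr; exact far_bound _ hi
    have h2 : ∏ j ∈ Finset.univ.erase i,
        (‖1 + cexp (2 * Real.pi * I * ((α * v j - p j : ℝ) : ℂ))‖ ^ 2) ^ n ≤ (4 ^ n) ^ 7 := by
      have : (Finset.univ.erase i).card = 7 := by simp [hι]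
      rw [← this, ← Finset.prod_const]
      refine Finset.prod_le_prod (fun _ _ => by positivity) fun j _ => ?_
      gcongr
      rw [norm_sq_one_add]; linarith [Real.cos_le_one (2 * Real.pi * (α * v j - p j))]
    refine (mul_le_mul h1 h2 (Finset.prod_nonneg fun _ _ => by positivity) (by positivity)).trans_eq ?_
    rw [mul_pow]; ring
  let a : (ι → ℕ) → ℂ := fun k => ∏ i, cexp (2 * Real.pi * I * (-p i) * k i) * ((2 * n).choose (k i))
  have hexp : ∀ α : ℝ, G α = ∑ k ∈ Fintype.piFinset fun _ : ι => Finset.range (2 * n + 1),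
      a k * cexp (2 * Real.pi * I * ((∑ i, ((k i : ℤ) - n) * v i : ℤ) : ℂ) * α) := fun α => by
    simp only [G, add_comm (1 : ℂ), add_pow, one_pow, mul_one, Finset.prod_univ_sum, Finset.sum_mul]
    refine Finset.sum_congr rfl fun k _ => ?_
    simp only [a, Finset.prod_mul_distrib, ← exp_nat_mul, ← exp_sum]
    rw [mul_right_comm, ← exp_add, mul_right_comm _ _ (cexp _), ← exp_add]
    congr 2
    push_cast
    simp only [Finset.mul_sum, Finset.sum_mul, mul_neg, neg_mul, ← Finset.sum_neg_distrib,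
      ← Finset.sum_add_distrib]
    exact Finset.sum_congr rfl fun i _ => by ring
  have hint : ∫ α in (0 : ℝ)..1, G α = a fun _ => n := by
    simp only [hexp]
    rw [intervalIntegral.integral_finsetSum fun k _ => Continuous.intervalIntegrable (by fun_prop) _ _]
    simp only [intervalIntegral.integral_const_mul, int_exp]
    rw [Finset.sum_eq_single fun _ => n]
    · simp
    · intro k hk hne
      rw [if_neg, mul_zero]
      intro h0
      have := hv (fun i => (k i : ℤ) - n) (fun i => by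
        have := Finset.mem_range.1 (Fintype.mem_piFinset.1 hk i)
        rw [abs_le]; omega) h0
      exact hne (funext fun i => by have := congrFun this i; simp only [Pi.zero_apply] at this; omega)
    · intro h
      exact absurd (Fintype.mem_piFinset.2 fun _ => Finset.mem_range.2 (by omega)) h
  have h1 := intervalIntegral.norm_integral_le_of_norm_le_const (a := 0) (b := 1) fun α _ => hb α
  have h2 : ‖a fun _ => n‖ = (n.centralBinom : ℝ) ^ 8 := by
    have : ∀ i, ‖cexp (2 * Real.pi * I * (-p i) * n)‖ = 1 := fun i => by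
      rw [← norm_exp_ofReal_mul_I (2 * Real.pi * (-p i) * n)]
      congr 2; push_cast; ring
    simp only [a, norm_prod, norm_mul, this, one_mul, Complex.norm_natCast, Finset.prod_const,
      Finset.card_univ, hι, Nat.centralBinom]
  rw [hint, h2] at h1
  have h3 : (4 : ℝ) ^ n < n * n.centralBinom := by exact_mod_cast Nat.four_pow_lt_mul_centralBinom n hn4
  have h4 : ((4 : ℝ) ^ n) ^ 8 < (n * n.centralBinom) ^ 8 := by gcongr
  have h5 : (0 : ℝ) < (4 ^ n) ^ 8 := by positivity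
  have h6 : (0 : ℝ) ≤ (n : ℝ) ^ 8 := by positivity
  rw [mul_pow] at h4
  simp only [sub_zero, abs_one, mul_one] at h1
  nlinarith [mul_le_mul_of_nonneg_left h1 h6]

theorem num_bound (n : ℕ) (h : n = 102400 * 200) : (1 - 1 / 102400 : ℝ) ^ n * n ^ 8 ≤ 1 := by
  have h1 : (1 - 1 / 102400 : ℝ) ^ 102400 ≤ 1 / 2 := by
    have h2 := one_add_mul_le_pow (a := (1 / 102400 : ℝ)) (by norm_num) 102400
    have h3 : (1 - 1 / 102400 : ℝ) ^ 102400 * (1 + 1 / 102400) ^ 102400 ≤ 1 := by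
      rw [← mul_pow]; exact pow_le_one₀ (by norm_num) (by norm_num)
    have h4 : (0 : ℝ) ≤ (1 - 1 / 102400 : ℝ) ^ 102400 := pow_nonneg (by norm_num) _
    generalize (1 - 1 / 102400 : ℝ) ^ 102400 = A at *
    generalize (1 + 1 / 102400 : ℝ) ^ 102400 = B at *
    norm_num at h2
    nlinarith
  have h4 : (0 : ℝ) ≤ (1 - 1 / 102400 : ℝ) ^ 102400 := pow_nonneg (by norm_num) _
  have h5 : (n : ℝ) = 20480000 := by rw [h]; norm_num
  rw [h5, h, pow_mul]
  generalize (1 - 1 / 102400 : ℝ) ^ 102400 = A at *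
  calc A ^ 200 * 20480000 ^ 8 ≤ (1 / 2) ^ 200 * 20480000 ^ 8 := by gcongr
    _ ≤ 1 := by norm_num

theorem kron {ι : Type} [Fintype ι] [DecidableEq ι] (hι : Fintype.card ι = 8) (v : ι → ℤ)
    (hv : ∀ k : ι → ℤ, (∀ i, |k i| ≤ 20480000) → ∑ i, k i * v i = 0 → k = 0) (p : ι → ℝ) :
    ∃ α : ℝ, ∀ i, ∃ q : ℤ, |α * v i - p i - q| ≤ 1 / 640 :=
  kron_aux hι 20480000 (by norm_num) (num_bound _ (by norm_num)) v hv p

end Pool.Agent.Lib.B5.G
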