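import Pool.Agent.Lib.B5G.Pat
import Pool.Agent.Lib.B5G.Kron

/-! Five-blocks with free phases tile the grid. -/

set_option autoImplicit false

namespace Pool.Agent.Lib.B5.G

def lab (a b : ZMod 5) : Z2 →+ ZMod 5 where
  toFun z := a * z.1 + b * z.2
  map_zero' := by simp
  map_add' z w := by simp; ring

theorem lab_apply (a b : ZMod 5) (z : Z2) : lab a b z = a * z.1 + b * z.2 := rfl

theorem cov_lattice {T : Fin 5 → Z2} (l : Z2 →+ ZMod 5) (h : Function.Injective fun j => l (T j)) :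
    Cov T := by
  have hb := (Fintype.bijective_iff_injective_and_card _).2 ⟨h, by simp⟩
  refine ⟨fun g => {z | g = 0 ∧ l z = 0}, fun z => ?_⟩
  obtain ⟨j, hj⟩ := hb.2 (l z)
  refine ⟨(0, j), ⟨rfl, by rw [map_sub, ← hj]; exact sub_self _⟩, ?_⟩
  rintro ⟨g, i⟩ ⟨rfl, hi⟩
  rw [map_sub, ← hj, sub_eq_zero] at hi
  rw [h hi]

theorem covR {T : Fin 5 → Z2} (hF : Free T) (h0 : T 0 = 0) (l : Z2 →+ ZMod 5) (h f : ℕ) (h8 : h < 8)
    (f8 : f < 8) (d : 0 / 2 ≠ h / 2 ∧ f / 2 ≠ 0 / 2 ∧ f / 2 ≠ h / 2) (h1 : ∀ j, l (act 0 (T j)) = 0)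
    (h2 : ∀ j, l (act f (T j)) = 0) (h3 : ¬ ∀ j, l (act h (T j)) = 0) : Cov T := by
  refine main hF l 0 h 5 1 rfl one_pos one_le_two (fun _ => f) (by decide) h8 (fun _ => f8) d.1
    (fun _ => d.2.1) (fun _ => d.2.2) (fun _ _ _ => Subsingleton.elim _ _) (baseR h1 ?_ h3) (eulerR h2)
  have := act_add h 0 0
  rw [add_zero, left_eq_add] at this
  simp only [h0, this, map_zero]

theorem cov4 {T : Fin 5 → Z2} (hF : Free T) (l : Z2 →+ ZMod 5) (a b c d : ℕ)
    (h8 : a < 8 ∧ b < 8 ∧ c < 8 ∧ d < 8)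
    (hd : a / 2 ≠ b / 2 ∧ c / 2 ≠ a / 2 ∧ d / 2 ≠ a / 2 ∧ c / 2 ≠ b / 2 ∧ d / 2 ≠ b / 2 ∧ c / 2 ≠ d / 2)
    (hB : Base (fun j => l (act a (T j))) fun j => l (act b (T j)))
    (hE : Euler 10 2 ![fun j => l (act c (T j)), fun j => l (act d (T j))]) : Cov T := by
  refine main hF l a b 10 2 rfl two_pos le_rfl ![c, d] h8.1 h8.2.1
    (Fin.forall_fin_two.2 ⟨h8.2.2.1, h8.2.2.2⟩) hd.1 (Fin.forall_fin_two.2 ⟨hd.2.1, hd.2.2.1⟩)
    (Fin.forall_fin_two.2 ⟨hd.2.2.2.1, hd.2.2.2.2.1⟩)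
    (Fin.forall_fin_two.2 ⟨Fin.forall_fin_two.2 ⟨fun _ => rfl, fun e => absurd e hd.2.2.2.2.2⟩,
      Fin.forall_fin_two.2 ⟨fun e => absurd e.symm hd.2.2.2.2.2, fun _ => rfl⟩⟩) hB ?_
  have e : (fun e j => l (act (![c, d] e) (T j))) =
      ![fun j => l (act c (T j)), fun j => l (act d (T j))] := by
    funext e; fin_cases e <;> rfl
  rw [e]; exact hE

theorem covA {T : Fin 5 → Z2} (hF : Free T) (l : Z2 →+ ZMod 5) (a b c d : ℕ)
    (h8 : a < 8 ∧ b < 8 ∧ c < 8 ∧ d < 8)
    (hd : a / 2 ≠ b / 2 ∧ c / 2 ≠ a / 2 ∧ d / 2 ≠ a / 2 ∧ c / 2 ≠ b / 2 ∧ d / 2 ≠ b / 2 ∧ c / 2 ≠ d / 2)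
    (u : Fin 5 → ZMod 5) (ha : ∀ j, l (act a (T j)) = u j) (hb : ∀ z, l (act b z) = l (act a z))
    (hc : ∀ z, l (act d z) = l (act c z)) (h1 : S1 u ≠ 0) (h2 : ¬ Is41 u) : Cov T := by
  refine cov4 hF l a b c d h8 hd (by simp only [hb, ha]; exact baseA h1 h2) ?_
  have e : ![fun j => l (act c (T j)), fun j => l (act d (T j))] = fun _ j => l (act c (T j)) := by
    funext e; fin_cases e
    · rfl
    · exact funext fun j => hc _
  rw [e]; exact eulerA _

theorem T3.mul {u v : Fin 5 → ZMod 5} (h : T3 u) (s : ZMod 5) (hs : s ≠ 0) (e : ∀ j, v j = s * u j) :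
    T3 v := by
  have a : Aff s u v := ⟨1, 0, fun j => by simp [e]⟩
  refine ⟨by rw [a.s1, h.1, mul_zero], ?_⟩
  rw [a.s2 h.1]
  have : ∀ s q : ZMod 5, s ≠ 0 → (q = 2 ∨ q = 3) → s ^ 2 * q = 2 ∨ s ^ 2 * q = 3 := by decide
  exact this _ _ hs h.2

theorem T2.mul {u v : Fin 5 → ZMod 5} (h : T2 u) (s : ZMod 5) (hs : s ≠ 0) (e : ∀ j, v j = s * u j) :
    T2 v := by
  have a : Aff s u v := ⟨1, 0, fun j => by simp [e]⟩
  refine ⟨by rw [a.s1, h.1, mul_zero], ?_⟩
  rw [a.s2 h.1]
  have : ∀ s q : ZMod 5, s ≠ 0 → (q = 1 ∨ q = 4) → s ^ 2 * q = 1 ∨ s ^ 2 * q = 4 := by decide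
  exact this _ _ hs h.2

theorem covB {T : Fin 5 → Z2} (hF : Free T) (l : Z2 →+ ZMod 5) (a b c d : ℕ)
    (h8 : a < 8 ∧ b < 8 ∧ c < 8 ∧ d < 8)
    (hd : a / 2 ≠ b / 2 ∧ c / 2 ≠ a / 2 ∧ d / 2 ≠ a / 2 ∧ c / 2 ≠ b / 2 ∧ d / 2 ≠ b / 2 ∧ c / 2 ≠ d / 2)
    (s : ZMod 5) (hs : s ≠ 0) (hc : ∀ z, l (act c z) = s * l (act a z))
    (hd' : ∀ z, l (act d z) = s * l (act b z))
    (h : (T3 fun j => l (act a (T j))) ∧ (T2 fun j => l (act b (T j))) ∨
      (T2 fun j => l (act a (T j))) ∧ T3 fun j => l (act b (T j))) : Cov T := by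
  rcases h with ⟨h1, h2⟩ | ⟨h1, h2⟩
  · exact cov4 hF l a b c d h8 hd (baseB h1 h2)
      (eulerB (h1.mul s hs fun j => hc _) (h2.mul s hs fun j => hd' _))
  · exact cov4 hF l b a d c (by tauto) (by omega) (baseB h2 h1)
      (eulerB (h2.mul s hs fun j => hd' _) (h1.mul s hs fun j => hc _))

theorem cov_free {T : Fin 5 → Z2} (hF : Free T) (h0 : T 0 = 0)
    (hn : ¬ ∀ j, ((T j).1 : ZMod 5) = 0 ∧ ((T j).2 : ZMod 5) = 0) : Cov T := by
  let x : Fin 5 → ZMod 5 := fun j => (T j).1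
  let y : Fin 5 → ZMod 5 := fun j => (T j).2
  have x0 : x 0 = 0 := by simp [x, h0]
  have y0 : y 0 = 0 := by simp [y, h0]
  have sol : ∀ p q p' q' : ZMod 5, p * q' - q * p' ≠ 0 → (∀ j, p * x j + q * y j = 0) →
      ¬ ∀ j, p' * x j + q' * y j = 0 := fun p q p' q' hd h1 h2 => hn fun j =>
    ⟨mul_left_cancel₀ hd (by linear_combination q' * h1 j - q * h2 j),
      mul_left_cancel₀ hd (by linear_combination p * h2 j - p' * h1 j)⟩
  -- rank one
  have R : ∀ p q : ZMod 5, (p ≠ 0 ∨ q ≠ 0) → (∀ j, p * x j + q * y j = 0) → Cov T := by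
    intro p q hpq h
    by_cases hp : p = 0
    · have hq : q ≠ 0 := hpq.resolve_left (not_not.2 hp)
      have h1 : ∀ j, 0 * x j + 1 * y j = 0 := fun j =>
        mul_left_cancel₀ hq (by linear_combination h j - x j * hp)
      refine covR hF h0 (lab 0 1) 2 4 (by decide) (by decide) (by decide) h1 (fun j => ?_) fun e => ?_
      · simp only [act, lab_apply]; push_cast; linear_combination -h1 j
      · refine sol 0 1 1 0 (by decide) h1 fun j => ?_
        have := e j
        simp only [act, lab_apply] at this; push_cast at this; linear_combination this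
    · have h1 : ∀ j, 1 * x j + q / p * y j = 0 := fun j =>
        mul_left_cancel₀ hp (by field_simp; linear_combination h j)
      generalize q / p = s at h1
      have : s = 0 ∨ s = 1 ∨ s = 4 ∨ s = 2 ∨ s = 3 := by clear h1; revert s; decide
      rcases this with rfl | rfl | rfl | rfl | rfl
      · refine covR hF h0 (lab 1 0) 6 4 (by decide) (by decide) (by decide) h1 (fun j => ?_) fun e => ?_
        · simp only [act, lab_apply]; push_cast; linear_combination h1 j
        · refine sol 1 0 0 1 (by decide) h1 fun j => ?_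
          have := e j
          simp only [act, lab_apply] at this; linear_combination this
      · refine covR hF h0 (lab 1 1) 4 6 (by decide) (by decide) (by decide) h1 (fun j => ?_) fun e => ?_
        · simp only [act, lab_apply]; linear_combination h1 j
        · refine sol 1 1 1 (-1) (by decide) h1 fun j => ?_
          have := e j
          simp only [act, lab_apply] at this; push_cast at this; linear_combination this
      · refine covR hF h0 (lab 1 4) 4 6 (by decide) (by decide) (by decide) h1 (fun j => ?_) fun e => ?_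
        · simp only [act, lab_apply]; linear_combination 4 * h1 j - 3 * y j * five
        · refine sol 1 4 1 (-4) (by decide) h1 fun j => ?_
          have := e j
          simp only [act, lab_apply] at this; push_cast at this; linear_combination this
      · refine covR hF h0 (lab 1 2) 4 2 (by decide) (by decide) (by decide) h1 (fun j => ?_) fun e => ?_
        · simp only [act, lab_apply]; push_cast; linear_combination 2 * h1 j - y j * five
        · refine sol 1 2 1 (-2) (by decide) h1 fun j => ?_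
          have := e j
          simp only [act, lab_apply] at this; push_cast at this; linear_combination this
      · refine covR hF h0 (lab 1 3) 4 2 (by decide) (by decide) (by decide) h1 (fun j => ?_) fun e => ?_
        · simp only [act, lab_apply]; push_cast; linear_combination 3 * h1 j - 2 * y j * five
        · refine sol 1 3 1 (-3) (by decide) h1 fun j => ?_
          have := e j
          simp only [act, lab_apply] at this; push_cast at this; linear_combination this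
  by_contra hc
  have s1 : ∀ p q : ZMod 5, S1 (fun j => p * x j + q * y j) = p * S1 x + q * S1 y := fun p q => by
    simp only [S1, Fin.sum_univ_five]; ring
  by_cases hσ : S1 x = 0 ∧ S1 y = 0
  · let q : ZMod 5 → ZMod 5 → ZMod 5 := fun p q => S2 fun j => p * x j + q * y j
    have z1 : ∀ a b, S1 (fun j => a * x j + b * y j) = 0 := fun a b => by simp [s1, hσ.1, hσ.2]
    have nz : ∀ a b, (a ≠ 0 ∨ b ≠ 0) → q a b ≠ 0 := fun a b hab e => by
      obtain ⟨_, -, h | h | h⟩ := sum_zero (z1 a b)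
      · rcases h.2 with h | h
        · exact hc (R a b hab fun j => by rw [h j, x0, y0]; simp)
        · exact hc (cov_lattice (lab a b) h)
      · exact absurd (e ▸ h.1 : (0 : ZMod 5) = 2 ∨ (0 : ZMod 5) = 3) (by decide)
      · exact absurd (e ▸ h.1 : (0 : ZMod 5) = 1 ∨ (0 : ZMod 5) = 4) (by decide)
    have qe : ∀ a b, q a b = a ^ 2 * q 1 0 + 2 * a * b * (∑ j, x j * y j) + b ^ 2 * q 0 1 := fun a b => by
      simp only [q, S2, Fin.sum_univ_five]; ring
    have fin : ∀ A B C : ZMod 5, (∀ a b : ZMod 5, (a ≠ 0 ∨ b ≠ 0) →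
          a ^ 2 * A + 2 * a * b * B + b ^ 2 * C ≠ 0) →
        ((A = 2 ∨ A = 3) ∧ (C = 1 ∨ C = 4) ∨ (A = 1 ∨ A = 4) ∧ (C = 2 ∨ C = 3)) ∨
        ∃ s : ZMod 5, (s = 1 ∨ s = 2) ∧ ∃ u v, u = 1 ^ 2 * A + 2 * 1 * s * B + s ^ 2 * C ∧
          v = 1 ^ 2 * A + 2 * 1 * (-s) * B + (-s) ^ 2 * C ∧
          ((u = 2 ∨ u = 3) ∧ (v = 1 ∨ v = 4) ∨ (u = 1 ∨ u = 4) ∧ (v = 2 ∨ v = 3)) := by
      decide +kernel
    have lb : ∀ (a b p r : ZMod 5) (g : ℕ), (∀ z, lab a b (act g z) = p * z.1 + r * z.2) →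
        (fun j => lab a b (act g (T j))) = fun j => p * x j + r * y j := fun a b p r g h =>
      funext fun j => h _
    rcases fin (q 1 0) (∑ j, x j * y j) (q 0 1) (fun a b h => qe a b ▸ nz a b h) with
      h | ⟨s, rfl | rfl, u, v, hu, hv, h⟩
    · refine hc (covB hF (lab 1 0) 0 6 4 3 (by decide) (by decide) 1 one_ne_zero
        (fun z => by simp [act, lab_apply]) (fun z => by simp [act, lab_apply]) ?_)
      rw [lb 1 0 1 0 0 fun z => rfl, lb 1 0 0 1 6 fun z => by simp [act, lab_apply]]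
      exact h.imp (fun h => ⟨⟨z1 _ _, h.1⟩, z1 _ _, h.2⟩) fun h => ⟨⟨z1 _ _, h.1⟩, z1 _ _, h.2⟩
    · refine hc (covB hF (lab 1 1) 0 4 6 2 (by decide) (by decide) 1 one_ne_zero
        (fun z => by simp [act, lab_apply, add_comm]) (fun z => by simp [act, lab_apply, add_comm]) ?_)
      rw [lb 1 1 1 1 0 fun z => rfl, lb 1 1 1 (-1) 4 fun z => by simp [act, lab_apply]]
      rw [← qe] at hu hv
      subst hu hv
      exact h.imp (fun h => ⟨⟨z1 _ _, h.1⟩, z1 _ _, h.2⟩) fun h => ⟨⟨z1 _ _, h.1⟩, z1 _ _, h.2⟩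
    · refine hc (covB hF (lab 1 2) 0 4 2 6 (by decide) (by decide) 2 (by decide)
        (fun z => by simp only [act, lab_apply]; push_cast; linear_combination -(z.2 : ZMod 5) * five)
        (fun z => by simp only [act, lab_apply]; push_cast; linear_combination (z.2 : ZMod 5) * five) ?_)
      rw [lb 1 2 1 2 0 fun z => rfl, lb 1 2 1 (-2) 4 fun z => by simp [act, lab_apply]]
      rw [← qe] at hu hv
      subst hu hv
      exact h.imp (fun h => ⟨⟨z1 _ _, h.1⟩, z1 _ _, h.2⟩) fun h => ⟨⟨z1 _ _, h.1⟩, z1 _ _, h.2⟩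
  · have A1 : S1 x ≠ 0 → Is41 x := fun h => by_contra fun h' =>
      hc (covA hF (lab 1 0) 0 4 3 6 (by decide) (by decide) x (fun j => by simp [act, lab_apply, x])
        (fun z => by simp [act, lab_apply]) (fun z => by simp [act, lab_apply]) h h')
    have A2 : S1 y ≠ 0 → Is41 y := fun h => by_contra fun h' =>
      hc (covA hF (lab 0 1) 0 5 2 6 (by decide) (by decide) y (fun j => by simp [act, lab_apply, y])
        (fun z => by simp [act, lab_apply]) (fun z => by simp [act, lab_apply]) h h')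
    have A3 : S1 x + S1 y ≠ 0 → Is41 fun j => 1 * x j + 1 * y j := fun h => by_contra fun h' =>
      hc (covA hF (lab 1 1) 0 6 4 2 (by decide) (by decide) (fun j => 1 * x j + 1 * y j) (fun j => rfl)
        (fun z => by simp [act, lab_apply, add_comm]) (fun z => by simp [act, lab_apply, add_comm])
        (by rw [s1]; simpa using h) h')
    have A4 : S1 x - S1 y ≠ 0 → Is41 fun j => 1 * x j + -1 * y j := fun h => by_contra fun h' =>
      hc (covA hF (lab 1 (-1)) 0 7 4 3 (by decide) (by decide) (fun j => 1 * x j + -1 * y j) (fun j => rfl)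
        (fun z => by simp [act, lab_apply, add_comm]) (fun z => by simp [act, lab_apply, add_comm])
        (by rw [s1]; simpa [sub_eq_add_neg] using h) h')
    have fin : ∀ a b : ZMod 5, ¬ (a = 0 ∧ b = 0) →
        (a ≠ 0 ∧ b ≠ 0 ∧ (a + b ≠ 0 ∨ a - b ≠ 0)) ∨ (a + b ≠ 0 ∧ a - b ≠ 0 ∧ (a ≠ 0 ∨ b ≠ 0)) := by
      decide
    have two : ∀ p q : ZMod 5, (p ≠ 0 ∨ q ≠ 0) → p + q ≠ 0 ∨ p - q ≠ 0 := by decide
    rcases fin _ _ hσ with ⟨h1, h2, h3 | h3⟩ | ⟨h1, h2, h3 | h3⟩
    · obtain ⟨p, q, hpq, h⟩ := three41 (A1 h1) (A2 h2) one_ne_zero one_ne_zero (A3 h3) x0 y0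
      exact hc (R p q hpq h)
    · obtain ⟨p, q, hpq, h⟩ := three41 (A1 h1) (A2 h2) one_ne_zero (by decide) (A4 h3) x0 y0
      exact hc (R p q hpq h)
    · obtain ⟨p, q, hpq, h⟩ := three41 (A3 h1) (A4 h2) (α := 3) (β := 3) (by decide) (by decide)
        (by
          have : (fun j => 3 * (1 * x j + 1 * y j) + 3 * (1 * x j + -1 * y j)) = x :=
            funext fun j => by linear_combination x j * five
          rw [this]; exact A1 h3) (by simp [x0, y0]) (by simp [x0, y0])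
      exact hc (R (p + q) (p - q) (two p q hpq) fun j => by linear_combination h j)
    · obtain ⟨p, q, hpq, h⟩ := three41 (A3 h1) (A4 h2) (α := 3) (β := -3) (by decide) (by decide)
        (by
          have : (fun j => 3 * (1 * x j + 1 * y j) + -3 * (1 * x j + -1 * y j)) = y :=
            funext fun j => by linear_combination y j * five
          rw [this]; exact A2 h3) (by simp [x0, y0]) (by simp [x0, y0])
      exact hc (R (p + q) (p - q) (two p q hpq) fun j => by linear_combination h j)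

end Pool.Agent.Lib.B5.G
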