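import Pool.Agent.Lib.B5G.TG

/-! Label level data (nominal base tiling, Euler circuit) and free phases give an exact cover. -/

set_option autoImplicit false

namespace Pool.Agent.Lib.B5.G

def sg (s : Bool) : ℤ := if s then -1 else 1

def Base (la lb : Fin 5 → ZMod 5) : Prop :=
  ∃ m : ℕ, 0 < m ∧ m ≤ 8 ∧ ∃ (η : ZMod m) (na nb : Fin 5 → ℤ) (cl s : Fin m → Bool)
    (o : Fin m → ZMod 5 × ZMod m), 5 * η = -1 ∧ Function.Injective fun x : Fin m × Fin 5 =>
      o x.1 + sg (s x.1) • (if cl x.1 then (lb x.2, (nb x.2 : ZMod m)) else (la x.2, (na x.2 : ZMod m)))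

def Euler (R r : ℕ) (μ : Fin r → Fin 5 → ZMod 5) : Prop :=
  ∃ (ev : ZMod R → Fin r) (ce : ZMod R → Fin 5) (κ k : Fin r → ZMod 5),
    Function.Injective (fun t => (ev t, ce t)) ∧
    ∀ t, k (ev (t + 1)) + μ (ev (t + 1)) (ce (t + 1)) = k (ev t) + μ (ev t) (ce t) + κ (ev t)

def Free (T : Fin 5 → Z2) : Prop :=
  ∀ u : ℕ → Fin 5 → ℝ, (∀ c, u c 0 = 0) → ∃ ψ : Z2 →+ ℝ, ∀ c < 4, ∀ j, ∃ n : ℤ,
    |ψ (act (2 * c) (T j)) - u c j - n| ≤ 1 / 320

def ng (s : Bool) (g : ℕ) : ℕ := if s then (if g % 2 = 0 then g + 1 else g - 1) else g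

theorem act_ng (s : Bool) {g : ℕ} (hg : g < 8) (z : Z2) : act (ng s g) z = sg s • act g z := by
  cases s
  · simp [ng, sg]
  · interval_cases g <;> simp [ng, sg, act, Prod.ext_iff]

theorem act_half {g : ℕ} (hg : g < 8) (z : Z2) :
    act g z = sg (decide (g % 2 = 1)) • act (2 * (g / 2)) z := by
  interval_cases g <;> simp [sg, act, Prod.ext_iff]

theorem sg_sq (s : Bool) : (sg s : ℝ) * sg s = 1 := by cases s <;> simp [sg]

theorem sg_abs (s : Bool) : |(sg s : ℝ)| = 1 := by cases s <;> simp [sg]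

theorem free2 {T : Fin 5 → Z2} (hF : Free T) {J : Type} (G : J → ℕ) (h8 : ∀ i, G i < 8)
    (hinj : ∀ i i', G i / 2 = G i' / 2 → i = i') (v : J → Fin 5 → ℝ) (hv : ∀ i, v i 0 = 0) :
    ∃ (ψ : Z2 →+ ℝ) (n : J → Fin 5 → ℤ), ∀ i j, |ψ (act (G i) (T j)) - v i j - n i j| ≤ 1 / 320 := by
  classical
  obtain ⟨ψ, hψ⟩ := hF (fun c j => if h : ∃ i, G i / 2 = c then
      sg (decide (G h.choose % 2 = 1)) * v h.choose j else 0) (fun c => by
    by_cases h : ∃ i, G i / 2 = c <;> simp [h, hv])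
  have : ∀ i j, ∃ n : ℤ, |ψ (act (G i) (T j)) - v i j - n| ≤ 1 / 320 := by
    intro i j
    have h : ∃ i', G i' / 2 = G i / 2 := ⟨i, rfl⟩
    obtain ⟨n, hn⟩ := hψ (G i / 2) (by have := h8 i; omega) j
    rw [dif_pos h, hinj _ _ h.choose_spec] at hn
    refine ⟨sg (decide (G i % 2 = 1)) * n, ?_⟩
    rw [act_half (h8 i), map_zsmul, zsmul_eq_mul]
    set s := decide (G i % 2 = 1)
    have e : (sg s : ℝ) * ψ (act (2 * (G i / 2)) (T j)) - v i j - ((sg s * n : ℤ) : ℝ) =
        sg s * (ψ (act (2 * (G i / 2)) (T j)) - sg s * v i j - n) := by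
      push_cast; linear_combination (v i j) * sg_sq s
    rw [e, abs_mul, sg_abs, one_mul]
    exact hn
  choose n hn using this
  exact ⟨ψ, n, hn⟩

theorem exists_prim {A : Type} [AddCommGroup A] (h : ℤ → A) :
    ∃ F : ℤ → A, ∀ t, F (t + 1) = F t + h t := by
  refine ⟨fun t => match t with
    | Int.ofNat n => ∑ i ∈ Finset.range n, h i
    | Int.negSucc n => -∑ i ∈ Finset.range (n + 1), h (Int.negSucc i), ?_⟩
  rintro (n | n)
  · exact Finset.sum_range_succ (fun i => h i) n
  · cases n with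
    | zero =>
      show ∑ i ∈ Finset.range 0, h i = _
      simp
    | succ n =>
      show -∑ i ∈ Finset.range (n + 1), h (Int.negSucc i) = _
      simp only [Finset.sum_range_succ (fun i => h (Int.negSucc i)) (n + 1)]
      abel

theorem exists_state {A : Type} [AddCommGroup A] (R : ℕ) [NeZero R] (H : ZMod R → A) :
    ∃ F : ℤ → A, (∀ t, F (t + 1) = F t + H t) ∧ ∀ t n : ℤ, F (t + R * n) = F t + n • ∑ x, H x := by
  obtain ⟨F, hF⟩ := exists_prim (fun t : ℤ => H t)
  have h1 : ∀ k : ℕ, F k = F 0 + ∑ i ∈ Finset.range k, H i := by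
    intro k
    induction k with
    | zero => simp
    | succ k ih => push_cast; rw [hF, ih, Finset.sum_range_succ]; push_cast; abel
  have h2 : ∑ i ∈ Finset.range R, H i = ∑ x, H x := by
    refine Finset.sum_bij (fun i _ => (i : ZMod R)) (by simp) ?_ ?_ (by simp)
    · intro a ha b hb hab
      have := congrArg ZMod.val hab
      rwa [ZMod.val_cast_of_lt (Finset.mem_range.1 ha), ZMod.val_cast_of_lt (Finset.mem_range.1 hb)]
        at this
    · intro b _
      exact ⟨b.val, Finset.mem_range.2 (ZMod.val_lt b), ZMod.natCast_zmod_val b⟩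
  have h3 : ∀ t : ℤ, F (t + R) = F t + ∑ x, H x := by
    have step : ∀ t : ℤ, F (t + 1 + R) - F (t + 1) = F (t + R) - F t := fun t => by
      rw [show t + 1 + R = t + R + 1 by ring, hF, hF]
      simp
    have : ∀ t : ℤ, F (t + R) - F t = ∑ x, H x := by
      intro t
      induction t using Int.induction_on with
      | zero => rw [zero_add, h1, h2]; abel
      | succ k ih => rw [step, ih]
      | pred k ih =>
        have := step (-k - 1)
        rw [show -(k : ℤ) - 1 + 1 = -k by ring] at this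
        rw [← this, ih]
    intro t
    rw [← this t]; abel
  refine ⟨F, hF, fun t n => ?_⟩
  induction n using Int.induction_on with
  | zero => simp
  | succ k ih => rw [show t + R * ((k : ℤ) + 1) = t + R * k + R by ring, h3, ih, add_smul, one_smul]; abel
  | pred k ih =>
    have := h3 (t + R * (-(k : ℤ) - 1))
    rw [show t + R * (-(k : ℤ) - 1) + R = t + R * -k by ring, ih] at this
    rw [sub_smul, one_smul, ← add_sub_assoc, this]; abel

theorem main {T : Fin 5 → Z2} (hF : Free T) (l : Z2 →+ ZMod 5) (ga gb R r : ℕ) (hR : R = 5 * r)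
    (hr : 0 < r) (hr2 : r ≤ 2) (f : Fin r → ℕ) (ha : ga < 8) (hb : gb < 8) (hf : ∀ e, f e < 8)
    (hab : ga / 2 ≠ gb / 2) (haf : ∀ e, f e / 2 ≠ ga / 2) (hbf : ∀ e, f e / 2 ≠ gb / 2)
    (hff : ∀ e e', f e / 2 = f e' / 2 → e = e')
    (hB : Base (fun j => l (act ga (T j))) fun j => l (act gb (T j)))
    (hE : Euler R r fun e j => l (act (f e) (T j))) : Cov T := by
  classical
  obtain ⟨m, hm, hm8, η, na, nb, cl, s, o, hη, hinj⟩ := hB
  obtain ⟨ev, ce, κ, k, hev, hcyc⟩ := hE
  have : NeZero m := ⟨hm.ne'⟩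
  have : NeZero R := ⟨by omega⟩
  have hm' : (0 : ℝ) < m := by exact_mod_cast hm
  have hR' : (0 : ℝ) < R := by exact_mod_cast (show 0 < R by omega)
  have hbij := (Fintype.bijective_iff_injective_and_card _).2 ⟨hinj, by simp [mul_comm]⟩
  have hevb := (Fintype.bijective_iff_injective_and_card _).2 ⟨hev, by simp [hR, mul_comm]⟩
  let e0 : Fin r := ⟨0, hr⟩
  let η' : Fin r → ZMod m := fun e => if e = e0 then η else 0
  obtain ⟨F, hF1, hF2⟩ := exists_state R fun x => η' (ev x)
  have hsum : ∑ x, η' (ev x) = -1 := by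
    rw [hevb.sum_comp fun y : Fin r × Fin 5 => η' y.1, Fintype.sum_prod_type, ← hη]
    simp [η', Finset.sum_ite_eq']
  have hs : ∀ e j, ∃ t : ℤ, ev t = e ∧ ce t = j := fun e j => by
    obtain ⟨x, hx⟩ := hevb.2 (e, j)
    obtain ⟨t, rfl⟩ := ZMod.intCast_surjective x
    exact ⟨t, (Prod.mk.inj hx).1, (Prod.mk.inj hx).2⟩
  choose S hS1 hS2 using hs
  choose L hL using fun x : ZMod m => ZMod.intCast_surjective x
  let Y : Fin r → Fin 5 → ℝ := fun e j => (S e j : ℝ) / R + L (F (S e j))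
  let gc : Bool → ℕ := fun c => if c then gb else ga
  let nc : Bool → Fin 5 → ℤ := fun c => if c then nb else na
  have gc8 : ∀ c, gc c < 8 := fun c => by cases c <;> simp [gc, ha, hb]
  obtain ⟨ψ0, n, hn⟩ := free2 hF (J := Bool ⊕ Fin r) (Sum.elim gc f)
    (by rintro (c | e); exacts [gc8 c, hf e])
    (by
      rintro (c | e) (c' | e') h
      · cases c <;> cases c' <;> simp_all [gc]
      · cases c
        · exact absurd h.symm (haf e')
        · exact absurd h.symm (hbf e')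
      · cases c'
        · exact absurd h (haf e)
        · exact absurd h (hbf e)
      · rw [hff e e' h])
    (Sum.elim (fun c j => ((nc c j - nc c 0 : ℤ) : ℝ) / m) fun e j => (Y e j - Y e 0) / m)
    (by rintro (c | e) <;> simp)
  let ψ : Z2 →+ ℝ := (m : ℝ) • ψ0
  have sc : ∀ (z : Z2) (a : ℝ) (q : ℤ), |ψ0 z - a / m - q| ≤ 1 / 320 →
      |ψ z - a - m * q| ≤ 1 / 40 := fun z a q h => by
    have e : ψ z - a - m * q = m * (ψ0 z - a / m - q) := by
      simp only [ψ, AddMonoidHom.smul_apply, smul_eq_mul]; field_simp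
    have : (m : ℝ) ≤ 8 := by exact_mod_cast hm8
    rw [e, abs_mul, abs_of_pos hm']
    nlinarith [abs_nonneg (ψ0 z - a / m - q)]
  let B := Equiv.ofBijective _ hbij
  have eq1 : ∀ i j, o i + sg (s i) • ((0 : ZMod 5), (nc (cl i) 0 : ZMod m)) +
      (l (act (ng (s i) (gc (cl i))) (T j)),
        ((sg (s i) * (nc (cl i) j - nc (cl i) 0 + m * n (Sum.inl (cl i)) j) : ℤ) : ZMod m)) =
      B (i, j) := fun i j => by
    rw [act_ng _ (gc8 _), map_zsmul]
    simp only [B, Equiv.ofBijective_apply, gc, nc]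
    cases cl i <;> ext <;> simp <;> ring
  refine tg T m R (by omega) l ψ (fun i => ng (s i) (gc (cl i)))
    (fun i => o i + sg (s i) • ((0 : ZMod 5), (nc (cl i) 0 : ZMod m)))
    (fun i j => sg (s i) * (nc (cl i) j - nc (cl i) 0 + m * n (Sum.inl (cl i)) j)) (1 / 40)
    ?_ ?_ B.symm ?_ ?_ f (fun e => (κ e, η' e)) k (fun e => Y e 0) (fun t => ev t) (fun t => ce t)
    (fun t => (k (ev t) + l (act (f (ev t)) (T (ce t))), F t))
    (fun t => t / R + (ψ (act (f (ev t)) (T (ce t))) - (Y (ev t) (ce t) - Y (ev t) 0) -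
      m * n (Sum.inr (ev t)) (ce t))) ?_ ?_ ?_ ?_ fun e j => ⟨S e j, hS1 e j, hS2 e j⟩
  · have : (R : ℝ) ≤ 10 := by exact_mod_cast (show R ≤ 10 by omega)
    push_cast; linarith
  · intro i j
    have h := sc _ _ _ (hn (Sum.inl (cl i)) j)
    simp only [Sum.elim_inl] at h
    rw [act_ng _ (gc8 _), map_zsmul, zsmul_eq_mul]
    push_cast at h ⊢
    rw [← mul_sub, abs_mul, sg_abs, one_mul, ← sub_sub]
    exact h
  · intro i j
    rw [eq1, B.symm_apply_apply]
  · intro c
    rw [eq1, Prod.mk.eta, B.apply_symm_apply]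
  · intro t
    ext
    · simpa using hcyc t
    · exact hF1 t
  · intro t
    have h := sc _ _ _ (hn (Sum.inr (ev t)) (ce t))
    simpa using h
  · intro t q
    have e : ((t + R * q : ℤ) : ZMod R) = t := by simp
    simp only [e, hF2, hsum]
    refine ⟨trivial, trivial, ?_, ?_⟩
    · ext <;> simp [sub_eq_add_neg]
    · push_cast; field_simp; ring
  · intro t
    have e : ((S (ev t) (ce t) : ℤ) : ZMod R) = t := hev (by simp only [hS1, hS2])
    obtain ⟨q, hq⟩ := (ZMod.intCast_eq_intCast_iff_dvd_sub _ _ _).1 e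
    have ht : t = S (ev t) (ce t) + R * q := by linarith
    refine ⟨q - L (F (S (ev t) (ce t))) - m * n (Sum.inr (ev t)) (ce t), ?_, ?_⟩
    · have : (t : ℝ) = S (ev t) (ce t) + R * q := by exact_mod_cast ht
      simp only [Y]
      push_cast
      rw [this]
      field_simp; ring
    · have := hF2 (S (ev t) (ce t)) q
      rw [← ht, hsum] at this
      ext
      · rfl
      · simp [this, hL]; ring

end Pool.Agent.Lib.B5.G
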