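import Pool.Agent.Lib.B5G.Data

/-! From label patterns to base tilings and Euler circuits. -/

set_option autoImplicit false

namespace Pool.Agent.Lib.B5.G

instance : Fact (Nat.Prime 5) := ⟨by norm_num⟩

/-- `u` is an affine image of `c` up to a permutation of the cells. -/
def Aff (a : ZMod 5) (c u : Fin 5 → ZMod 5) : Prop :=
  ∃ (σ : Equiv.Perm (Fin 5)) (b : ZMod 5), ∀ j, u (σ j) = a * c j + b

theorem Base.aff {la lb u v : Fin 5 → ZMod 5} (h : Base la lb) {a : ZMod 5} (ha : a ≠ 0)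
    (h1 : Aff a la u) (h2 : Aff a lb v) : Base u v := by
  obtain ⟨σ, b, h1⟩ := h1
  obtain ⟨τ, b', h2⟩ := h2
  obtain ⟨m, hm, hm8, η, na, nb, cl, s, o, hη, hinj⟩ := h
  refine ⟨m, hm, hm8, η, fun j => na (σ.symm j), fun j => nb (τ.symm j), cl, s,
    fun i => (a * (o i).1 - sg (s i) * (if cl i then b' else b), (o i).2), hη, ?_⟩
  let ρ : Fin m → Equiv.Perm (Fin 5) := fun i => if cl i then τ else σ
  have key : ∀ (i : Fin m) (j : Fin 5),
      ((a * (o i).1 - sg (s i) * (if cl i then b' else b), (o i).2) : ZMod 5 × ZMod m) + sg (s i) •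
        (if cl i then (v (ρ i j), (nb (τ.symm (ρ i j)) : ZMod m))
          else (u (ρ i j), (na (σ.symm (ρ i j)) : ZMod m))) =
      (a * (o i + sg (s i) • (if cl i then (lb j, (nb j : ZMod m)) else (la j, (na j : ZMod m)))).1,
        (o i + sg (s i) • (if cl i then (lb j, (nb j : ZMod m)) else (la j, (na j : ZMod m)))).2) := by
    intro i j
    simp only [ρ]
    cases cl i <;> ext <;> simp [h1, h2] <;> ring
  rintro ⟨i, j⟩ ⟨i', j'⟩ hx
  obtain ⟨j, rfl⟩ := (ρ i).surjective j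
  obtain ⟨j', rfl⟩ := (ρ i').surjective j'
  simp only [key, Prod.mk.injEq] at hx
  have := hinj (a₁ := (i, j)) (a₂ := (i', j')) (Prod.ext (mul_left_cancel₀ ha hx.1) hx.2)
  obtain ⟨rfl, rfl⟩ := Prod.mk.inj this
  rfl

theorem Euler.aff {R r : ℕ} {μ μ' : Fin r → Fin 5 → ZMod 5} (h : Euler R r μ) (a : ZMod 5)
    (h1 : ∀ e, Aff a (μ e) (μ' e)) : Euler R r μ' := by
  choose σ b h1 using h1
  obtain ⟨ev, ce, κ, k, hinj, hc⟩ := h
  refine ⟨ev, fun t => σ (ev t) (ce t), fun e => a * κ e, fun e => a * k e - b e, ?_, fun t => ?_⟩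
  · intro t t' h
    obtain ⟨e1, e2⟩ := Prod.mk.inj h
    simp only [← e1] at e2
    exact hinj (Prod.ext e1 ((σ _).injective e2))
  · simp only [h1]
    linear_combination a * hc t

theorem classify (u : Fin 5 → ZMod 5) : ∃ t a, a ≠ 0 ∧ Aff a (can t) u := by
  let σ := Tuple.sort fun j => (u j).val
  have hm : Monotone ((fun j => (u j).val) ∘ σ) := Tuple.monotone_sort _
  obtain ⟨w, -, h1, h2, h3⟩ := wit_ok (u (σ 0)) (u (σ 1)) (u (σ 2)) (u (σ 3)) (u (σ 4))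
    (hm (by decide)) (hm (by decide)) (hm (by decide)) (hm (by decide))
  have e : ![u (σ 0), u (σ 1), u (σ 2), u (σ 3), u (σ 4)] = fun j => u (σ j) := by
    funext j; fin_cases j <;> rfl
  rw [e] at h1
  exact ⟨w.1, w.2.1, h2, (Equiv.ofBijective _ (Finite.injective_iff_bijective.1 h3)).trans σ,
    w.2.2.1, h1⟩

def S1 (u : Fin 5 → ZMod 5) : ZMod 5 := ∑ j, u j

def S2 (u : Fin 5 → ZMod 5) : ZMod 5 := ∑ j, u j ^ 2

theorem five : (5 : ZMod 5) = 0 := rfl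

theorem Aff.s1 {a : ZMod 5} {c u : Fin 5 → ZMod 5} (h : Aff a c u) : S1 u = a * S1 c := by
  obtain ⟨σ, b, h⟩ := h
  unfold S1
  rw [← Equiv.sum_comp σ]
  simp only [h, Fin.sum_univ_five]
  linear_combination b * five

theorem Aff.s2 {a : ZMod 5} {c u : Fin 5 → ZMod 5} (h : Aff a c u) (h0 : S1 c = 0) :
    S2 u = a ^ 2 * S2 c := by
  obtain ⟨σ, b, h⟩ := h
  unfold S1 at h0
  unfold S2
  rw [← Equiv.sum_comp σ fun j => u j ^ 2]
  simp only [h, Fin.sum_univ_five] at h0 ⊢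
  linear_combination b ^ 2 * five + 2 * a * b * h0

def Is41 (u : Fin 5 → ZMod 5) : Prop := ∃ j, ∀ i i', i ≠ j → i' ≠ j → u i = u i'

theorem aff_zero (a : ZMod 5) {u : Fin 5 → ZMod 5} (h : ∀ j, u j = 0) : Aff a (can 0) u :=
  ⟨1, 0, fun j => by rw [h]; fin_cases j <;> simp [can]⟩

theorem baseA {u : Fin 5 → ZMod 5} (h1 : S1 u ≠ 0) (h2 : ¬ Is41 u) : Base u u := by
  obtain ⟨t, a, ha, h⟩ := classify u
  have h3 : S1 (can t) ≠ 0 := fun e => h1 (by rw [h.s1, e, mul_zero])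
  fin_cases t
  · exact absurd (by decide) h3
  · obtain ⟨σ, b, h⟩ := h
    refine absurd ⟨σ 4, fun i i' hi hi' => ?_⟩ h2
    obtain ⟨i, rfl⟩ := σ.surjective i
    obtain ⟨i', rfl⟩ := σ.surjective i'
    have : ∀ i : Fin 5, i ≠ 4 → can 1 i = 0 := by decide
    rw [h, h]
    exact congrArg (a * · + b) ((this i fun e => hi (by rw [e])).trans (this i' fun e => hi' (by rw [e])).symm)
  · exact bA2.aff ha h h
  · exact bA3.aff ha h h
  · exact absurd (by decide) h3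
  · exact bA5.aff ha h h
  · exact absurd (by decide) h3
  · exact bA7.aff ha h h
  · exact absurd (by decide) h3

theorem baseR {u v : Fin 5 → ZMod 5} (h1 : ∀ j, u j = 0) (h0 : v 0 = 0) (h2 : ¬ ∀ j, v j = 0) :
    Base u v := by
  obtain ⟨t, a, ha, h⟩ := classify v
  have h3 := aff_zero a h1
  fin_cases t
  · obtain ⟨σ, b, h⟩ := h
    have h4 : ∀ j, v j = b := fun j => by
      obtain ⟨j, rfl⟩ := σ.surjective j
      have : ∀ i : Fin 5, can 0 i = 0 := by decide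
      rw [h]; exact (congrArg (a * · + b) (this j)).trans (by simp)
    exact absurd (fun j => by rw [h4, ← h4 0, h0]) h2
  · exact bR1.aff ha h3 h
  · exact bR2.aff ha h3 h
  · exact bR3.aff ha h3 h
  · exact bR4.aff ha h3 h
  · exact bR5.aff ha h3 h
  · exact bR6.aff ha h3 h
  · exact bR7.aff ha h3 h
  · exact bR8.aff ha h3 h

theorem eulerR {u : Fin 5 → ZMod 5} (h1 : ∀ j, u j = 0) : Euler 5 1 fun _ => u :=
  eR.aff 1 fun _ => aff_zero 1 h1

theorem eulerA (u : Fin 5 → ZMod 5) : Euler 10 2 fun _ => u := by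
  obtain ⟨t, a, -, h⟩ := classify u
  fin_cases t
  exacts [eA0.aff a fun _ => h, eA1.aff a fun _ => h, eA2.aff a fun _ => h, eA3.aff a fun _ => h,
    eA4.aff a fun _ => h, eA5.aff a fun _ => h, eA6.aff a fun _ => h, eA7.aff a fun _ => h,
    eA8.aff a fun _ => h]

theorem sum_zero {u : Fin 5 → ZMod 5} (h1 : S1 u = 0) : ∃ a, a ≠ 0 ∧
    (S2 u = 0 ∧ ((∀ j, u j = u 0) ∨ Function.Injective u) ∨
      (S2 u = 2 ∨ S2 u = 3) ∧ Aff a (can 4) u ∨ (S2 u = 1 ∨ S2 u = 4) ∧ Aff a (can 6) u) := by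
  obtain ⟨t, a, ha, h⟩ := classify u
  have h3 : S1 (can t) = 0 := by
    have := h.s1
    rw [h1] at this
    exact (mul_eq_zero.1 this.symm).resolve_left ha
  have h4 := h.s2 h3
  refine ⟨a, ha, ?_⟩
  fin_cases t
  · refine Or.inl ⟨by rw [h4]; exact mul_eq_zero_of_right _ (by decide), Or.inl ?_⟩
    obtain ⟨σ, b, h⟩ := h
    have h4 : ∀ j, u j = b := fun j => by
      obtain ⟨j, rfl⟩ := σ.surjective j
      have : ∀ i : Fin 5, can 0 i = 0 := by decide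
      rw [h]; exact (congrArg (a * · + b) (this j)).trans (by simp)
    intro j; rw [h4, h4]
  · exact absurd h3 (by decide)
  · exact absurd h3 (by decide)
  · exact absurd h3 (by decide)
  · refine Or.inr (Or.inl ⟨?_, h⟩)
    rw [h4]; clear h h4; revert a; decide
  · exact absurd h3 (by decide)
  · refine Or.inr (Or.inr ⟨?_, h⟩)
    rw [h4]; clear h h4; revert a; decide
  · exact absurd h3 (by decide)
  · refine Or.inl ⟨by rw [h4]; exact mul_eq_zero_of_right _ (by decide), Or.inr ?_⟩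
    obtain ⟨σ, b, h⟩ := h
    intro i j e
    obtain ⟨i, rfl⟩ := σ.surjective i
    obtain ⟨j, rfl⟩ := σ.surjective j
    have : Function.Injective (can 8) := by decide
    rw [h, h] at e
    rw [this (mul_left_cancel₀ ha (add_right_cancel e))]

def T3 (u : Fin 5 → ZMod 5) : Prop := S1 u = 0 ∧ (S2 u = 2 ∨ S2 u = 3)

def T2 (u : Fin 5 → ZMod 5) : Prop := S1 u = 0 ∧ (S2 u = 1 ∨ S2 u = 4)

theorem pairB {u v : Fin 5 → ZMod 5} (hu : T3 u) (hv : T2 v) :
    ∃ a s : ZMod 5, a ≠ 0 ∧ s ≠ 0 ∧ Aff a (can 4) u ∧ Aff a (fun j => s * can 6 j) v := by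
  obtain ⟨a, ha, h⟩ := sum_zero hu.1
  obtain ⟨a', ha', h'⟩ := sum_zero hv.1
  have d1 : ∀ q : ZMod 5, (q = 2 ∨ q = 3) → q ≠ 0 ∧ ¬ (q = 1 ∨ q = 4) := by decide
  have d2 : ∀ q : ZMod 5, (q = 1 ∨ q = 4) → q ≠ 0 ∧ ¬ (q = 2 ∨ q = 3) := by decide
  rcases h with h | h | h
  · exact absurd h.1 (d1 _ hu.2).1
  · rcases h' with h' | h' | h'
    · exact absurd h'.1 (d2 _ hv.2).1
    · exact absurd h'.1 (d2 _ hv.2).2
    · obtain ⟨σ, b, e⟩ := h'.2
      exact ⟨a, a' / a, ha, div_ne_zero ha' ha, h.2, σ, b, fun j => by rw [e]; field_simp⟩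
  · exact absurd h.1 (d1 _ hu.2).2

theorem baseB {u v : Fin 5 → ZMod 5} (hu : T3 u) (hv : T2 v) : Base u v := by
  obtain ⟨a, s, ha, hs, h1, h2⟩ := pairB hu hv
  have : s = 1 ∨ s = 2 ∨ s = 3 ∨ s = 4 := by clear h2; revert s; decide
  rcases this with rfl | rfl | rfl | rfl
  exacts [bB1.aff ha h1 h2, bB2.aff ha h1 h2, bB3.aff ha h1 h2, bB4.aff ha h1 h2]

theorem eulerB {u v : Fin 5 → ZMod 5} (hu : T3 u) (hv : T2 v) : Euler 10 2 ![u, v] := by
  obtain ⟨a, s, ha, hs, h1, h2⟩ := pairB hu hv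
  have : s = 1 ∨ s = 2 ∨ s = 3 ∨ s = 4 := by clear h2; revert s; decide
  rcases this with rfl | rfl | rfl | rfl
  exacts [eB1.aff a (Fin.forall_fin_two.2 ⟨h1, h2⟩), eB2.aff a (Fin.forall_fin_two.2 ⟨h1, h2⟩),
    eB3.aff a (Fin.forall_fin_two.2 ⟨h1, h2⟩), eB4.aff a (Fin.forall_fin_two.2 ⟨h1, h2⟩)]

theorem three41 {u v : Fin 5 → ZMod 5} (hu : Is41 u) (hv : Is41 v) {α β : ZMod 5} (hα : α ≠ 0)
    (hβ : β ≠ 0) (hw : Is41 fun j => α * u j + β * v j) (u0 : u 0 = 0) (v0 : v 0 = 0) :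
    ∃ p q : ZMod 5, (p ≠ 0 ∨ q ≠ 0) ∧ ∀ j, p * u j + q * v j = 0 := by
  obtain ⟨a, hu⟩ := hu
  obtain ⟨b, hv⟩ := hv
  obtain ⟨c, hw⟩ := hw
  have ex : ∀ a b c : Fin 5, ∃ i, i ≠ a ∧ i ≠ b ∧ i ≠ c := by decide
  obtain ⟨i, ia, ib, ic⟩ := ex a b c
  have cst : ∀ (x : Fin 5 → ZMod 5) (d : Fin 5), (∀ j j', j ≠ d → j' ≠ d → x j = x j') → i ≠ d →
      x d = x i → x 0 = 0 → ∀ j, x j = 0 := fun x d h1 h2 h3 h4 => by
    have : ∀ j, x j = x i := fun j => by
      by_cases e : j = d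
      · rw [e, h3]
      · exact h1 j i e h2
    intro j; rw [this, ← this 0, h4]
  by_cases e1 : u a = u i
  · exact ⟨1, 0, Or.inl one_ne_zero, fun j => by simp [cst u a hu ia e1 u0 j]⟩
  by_cases e2 : v b = v i
  · exact ⟨0, 1, Or.inr one_ne_zero, fun j => by simp [cst v b hv ib e2 v0 j]⟩
  by_cases e : a = b
  · subst e
    refine ⟨v a - v i, u i - u a, Or.inl (sub_ne_zero.2 e2), ?_⟩
    refine cst (fun j => (v a - v i) * u j + (u i - u a) * v j) a (fun j j' h h' => ?_) ia ?_ ?_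
    · simp only [hu j j' h h', hv j j' h h']
    · ring
    · simp [u0, v0]
  · exfalso
    by_cases e3 : a = c
    · subst e3
      have h1 := hw b i (Ne.symm e) ia
      simp only [hu b i (Ne.symm e) ia] at h1
      exact e2 (mul_left_cancel₀ hβ (add_left_cancel h1))
    · have h1 := hw a i e3 ic
      simp only [hv a i e ib] at h1
      exact e1 (mul_left_cancel₀ hα (add_right_cancel h1))

end Pool.Agent.Lib.B5.G
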