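import Pool.Agent.Lib.B5G.Gen

/-! Five-blocks without small linear relations among the coordinates tile the grid. -/

set_option autoImplicit false

namespace Pool.Agent.Lib.B5.G

def NoRel (T : Fin 5 → Z2) : Prop := ∀ k l : Fin 4 → ℤ, (∀ i, |k i| ≤ 20480000) →
  (∀ i, |l i| ≤ 20480000) → ∑ i, k i * (T i.succ).1 + ∑ i, l i * (T i.succ).2 = 0 → k = 0 ∧ l = 0

def lin (α β : ℝ) : Z2 →+ ℝ where
  toFun z := α * z.1 + β * z.2
  map_zero' := by simp
  map_add' z w := by simp; ring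

theorem lin_apply (α β : ℝ) (z : Z2) : lin α β z = α * z.1 + β * z.2 := rfl

theorem kron2 {T : Fin 5 → Z2} (h : NoRel T) (p q : Fin 4 → ℝ) : ∃ α : ℝ, ∀ i,
    (∃ n : ℤ, |α * (T i.succ).1 - p i - n| ≤ 1 / 640) ∧ ∃ n : ℤ, |α * (T i.succ).2 - q i - n| ≤ 1 / 640 := by
  obtain ⟨α, hα⟩ := kron (ι := Fin 4 ⊕ Fin 4) (by simp)
    (Sum.elim (fun i => (T i.succ).1) fun i => (T i.succ).2) (fun k hk e => by
      rw [Fintype.sum_sum_type] at e
      obtain ⟨h1, h2⟩ := h (fun i => k (.inl i)) (fun i => k (.inr i)) (fun i => hk _) (fun i => hk _) e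
      funext i
      rcases i with i | i
      · exact congrFun h1 i
      · exact congrFun h2 i) (Sum.elim p q)
  exact ⟨α, fun i => ⟨hα (.inl i), hα (.inr i)⟩⟩

theorem add_close {a b : ℝ} (ha : |a| ≤ 1 / 640) (hb : |b| ≤ 1 / 640) {c : ℝ}
    (h : c = a + b ∨ c = a - b) : |c| ≤ 1 / 320 := by
  rw [abs_le] at *
  rcases h with rfl | rfl <;> constructor <;> linarith [ha.1, ha.2, hb.1, hb.2]

theorem free_of_norel {T : Fin 5 → Z2} (h0 : T 0 = 0) (h : NoRel T) : Free T := by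
  intro u hu
  obtain ⟨α, hα⟩ := kron2 h (fun i => (u 0 i.succ + u 2 i.succ) / 2)
    fun i => (u 3 i.succ - u 1 i.succ) / 2
  obtain ⟨β, hβ⟩ := kron2 h (fun i => (u 1 i.succ + u 3 i.succ) / 2)
    fun i => (u 0 i.succ - u 2 i.succ) / 2
  refine ⟨lin α β, fun c hc j => ?_⟩
  refine Fin.cases ?_ (fun i => ?_) j
  · refine ⟨0, ?_⟩
    have := act_add (2 * c) 0 0
    rw [add_zero, left_eq_add] at this
    rw [h0, this, map_zero, hu]; norm_num
  · obtain ⟨⟨n1, a1⟩, n2, a2⟩ := hα i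
    obtain ⟨⟨m1, b1⟩, m2, b2⟩ := hβ i
    interval_cases c
    · exact ⟨n1 + m2, add_close a1 b2 (.inl (by simp only [act, lin_apply]; push_cast; ring))⟩
    · exact ⟨m1 - n2, add_close b1 a2 (.inr (by simp only [act, lin_apply]; push_cast; ring))⟩
    · exact ⟨n1 - m2, add_close a1 b2 (.inr (by simp only [act, lin_apply]; push_cast; ring))⟩
    · exact ⟨m1 + n2, add_close b1 a2 (.inl (by simp only [act, lin_apply]; push_cast; ring))⟩

theorem act_smul (g : ℕ) (n : ℤ) (z : Z2) : act g (n • z) = n • act g z := by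
  unfold act
  split <;> simp

theorem cov_scale {T : Fin 5 → Z2} (h : Cov T) : Cov fun j => (5 : ℤ) • T j := by
  obtain ⟨A, hA⟩ := h
  refine ⟨fun g => {z | (z.1 / 5, z.2 / 5) ∈ A g}, fun z => ?_⟩
  have e : ∀ w : Z2, ((z - (5 : ℤ) • w).1 / 5, (z - (5 : ℤ) • w).2 / 5) = (z.1 / 5, z.2 / 5) - w := by
    intro w
    simp only [Prod.ext_iff, Prod.fst_sub, Prod.snd_sub, Prod.smul_fst, Prod.smul_snd, smul_eq_mul]
    omega
  simpa only [Set.mem_setOf_eq, act_smul, e] using hA (z.1 / 5, z.2 / 5)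

theorem cov_norel (n : ℕ) : ∀ T : Fin 5 → Z2, (T 1).1.natAbs = n → T 0 = 0 → NoRel T → Cov T := by
  induction n using Nat.strong_induction_on with
  | _ n ih =>
    intro T hn h0 h
    by_cases hd : ∀ j, ((T j).1 : ZMod 5) = 0 ∧ ((T j).2 : ZMod 5) = 0
    · simp only [ZMod.intCast_zmod_eq_zero_iff_dvd] at hd
      let U : Fin 5 → Z2 := fun j => ((T j).1 / 5, (T j).2 / 5)
      have e1 : ∀ j, (T j).1 = 5 * (U j).1 := fun j => by have := (hd j).1; simp only [U]; omega
      have e2 : ∀ j, (T j).2 = 5 * (U j).2 := fun j => by have := (hd j).2; simp only [U]; omega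
      have e : T = fun j => (5 : ℤ) • U j := funext fun j => Prod.ext (e1 j) (e2 j)
      have nz : (T 1).1 ≠ 0 := fun z => by
        have := (h ![1, 0, 0, 0] 0 (fun i => by fin_cases i <;> simp) (by simp)
          (by simp [Fin.sum_univ_four, z])).1
        exact absurd (congrFun this 0) (by simp)
      rw [e]
      refine cov_scale (ih _ ?_ U rfl (by simp [U, h0, Prod.ext_iff]) fun k l hk hl r => h k l hk hl ?_)
      · have := e1 1
        omega
      · simp only [e1, e2, Fin.sum_univ_four] at r ⊢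
        linear_combination 5 * r
    · exact cov_free (free_of_norel h0 h) h0 hd

end Pool.Agent.Lib.B5.G
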