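import Pool.Agent.Lib.B5.Basic

/-! Translate game: a nominal tiling, its translates as states, thin filler windows. -/

set_option autoImplicit false

namespace Pool.Agent.Lib.B5.G

theorem chain (a : ℤ → ℝ) (R : ℝ) (hR : 0 < R) (h1 : ∀ t, a t ≤ a (t + 1))
    (h2 : ∀ t : ℤ, |a t - t / R| ≤ 1) (φ : ℝ) : ∃! t, a t ≤ φ ∧ φ < a (t + 1) := by
  have mono : Monotone a := monotone_int_of_le_succ h1
  obtain ⟨t, ht, hmax⟩ := Int.exists_greatest_of_bdd (P := fun t => a t ≤ φ)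
    ⟨⌈(φ + 1) * R⌉, fun z hz => by
      have := (abs_le.1 (h2 z)).1
      have h3 : (z : ℝ) / R ≤ φ + 1 := by linarith
      rw [div_le_iff₀ hR] at h3
      have := Int.le_ceil ((φ + 1) * R)
      exact_mod_cast h3.trans this⟩
    ⟨⌊(φ - 1) * R⌋, by
      have := (abs_le.1 (h2 ⌊(φ - 1) * R⌋)).2
      have h3 : ((⌊(φ - 1) * R⌋ : ℤ) : ℝ) / R ≤ φ - 1 := by
        rw [div_le_iff₀ hR]; exact Int.floor_le _
      linarith⟩
  refine ⟨t, ⟨ht, ?_⟩, ?_⟩
  · by_contra h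
    have := hmax (t + 1) (not_lt.1 h)
    omega
  · rintro s ⟨hs1, hs2⟩
    have h4 := hmax s hs1
    by_contra hne
    have : a (s + 1) ≤ a t := mono (by omega)
    linarith

theorem tg (T : Fin 5 → Z2) (m : ℕ) (R : ℤ) (hR : 0 < R) (l : Z2 →+ ZMod 5) (ψ : Z2 →+ ℝ)
    {I E : Type} (g : I → ℕ) (o : I → ZMod 5 × ZMod m) (ν : I → Fin 5 → ℤ) (δ : ℝ)
    (hδ : 4 * δ * R ≤ 1)
    (hε : ∀ i j, |ψ (act (g i) (T j)) - ν i j| ≤ δ)
    (β : ZMod 5 × ZMod m → I × Fin 5)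
    (hβ1 : ∀ i j, β (o i + (l (act (g i) (T j)), (ν i j : ZMod m))) = (i, j))
    (hβ2 : ∀ c, o (β c).1 + (l (act (g (β c).1) (T (β c).2)), (ν (β c).1 (β c).2 : ZMod m)) = c)
    (f : E → ℕ) (st : E → ZMod 5 × ZMod m) (kk : E → ZMod 5) (θ : E → ℝ)
    (ev : ℤ → E) (ce : ℤ → Fin 5) (P : ℤ → ZMod 5 × ZMod m) (τ : ℤ → ℝ)
    (hP : ∀ t, P (t + 1) = P t + st (ev t))
    (hτ : ∀ t : ℤ, |τ t - t / R| ≤ δ)
    (per : ∀ t n : ℤ, ev (t + R * n) = ev t ∧ ce (t + R * n) = ce t ∧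
      P (t + R * n) = P t - (0, (n : ZMod m)) ∧ τ (t + R * n) = τ t + n)
    (H1 : ∀ t, ∃ n : ℤ, τ t = n + θ (ev t) + ψ (act (f (ev t)) (T (ce t))) ∧
      P t = (kk (ev t) + l (act (f (ev t)) (T (ce t))), -(n : ZMod m)))
    (H2 : ∀ e j, ∃ t, ev t = e ∧ ce t = j) : Cov T := by
  have hR' : (0 : ℝ) < R := by exact_mod_cast hR
  have hR1 : (1 : ℝ) ≤ R := by exact_mod_cast hR
  have hδ0 : 0 ≤ δ := (abs_nonneg _).trans (hτ 0)
  let ε : ZMod 5 × ZMod m → ℝ := fun c => ψ (act (g (β c).1) (T (β c).2)) - ν (β c).1 (β c).2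
  have hε' : ∀ c, |ε c| ≤ δ := fun c => hε _ _
  let A : ℕ → Set Z2 := fun γ => {z | (∃ i t, g i = γ ∧ o i + P (t + 1) = (l z, 0) ∧
      τ t + 2 * δ ≤ ψ z ∧ ψ z < τ (t + 1)) ∨
    ∃ e, ∃ n : ℤ, f e = γ ∧ n + θ e + ε (l z - kk e, (n : ZMod m)) ≤ ψ z ∧
      ψ z < n + θ e + 2 * δ + ε ((l z - kk e, (n : ZMod m)) - st e)}
  refine ⟨A, fun z => ?_⟩
  let w : ℤ → ZMod 5 × ZMod m := fun t => (l z, 0) - P t
  let lo : ℤ → ℝ := fun t => τ t + ε (w t)
  let mid : ℤ → ℝ := fun t => τ t + 2 * δ + ε (w (t + 1))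
  have lm : ∀ t, lo t ≤ mid t := fun t => by
    have := (abs_le.1 (hε' (w t))).2
    have := (abs_le.1 (hε' (w (t + 1)))).1
    simp only [lo, mid]; linarith
  have ml : ∀ t, mid t ≤ lo (t + 1) := fun t => by
    have h1 := (abs_le.1 (hτ t)).2
    have h2 := (abs_le.1 (hτ (t + 1))).1
    have h3 : 4 * δ ≤ 1 / R := by rw [le_div_iff₀ hR']; exact hδ
    have h4 : ((t + 1 : ℤ) : ℝ) / R = t / R + 1 / R := by push_cast; ring
    simp only [lo, mid]; linarith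
  obtain ⟨t0, ht0, huniq⟩ := chain lo R hR' (fun t => (lm t).trans (ml t)) (fun t => by
    have h1 := abs_le.1 (hτ t)
    have h2 := abs_le.1 (hε' (w t))
    have h3 : 4 * δ ≤ 1 := by nlinarith
    simp only [lo]
    rw [abs_le]; constructor <;> linarith [h1.1, h1.2, h2.1, h2.2]) (ψ z)
  have ws : ∀ t, w (t + 1) = w t - st (ev t) := fun t => by simp only [w, hP]; abel
  -- description of the valid pairs
  have key : ∀ x : ℕ × Fin 5, z - act x.1 (T x.2) ∈ A x.1 ↔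
      (∃ t, mid t ≤ ψ z ∧ ψ z < lo (t + 1) ∧ x = (g (β (w (t + 1))).1, (β (w (t + 1))).2)) ∨
      ∃ t, lo t ≤ ψ z ∧ ψ z < mid t ∧ x = (f (ev t), ce t) := by
    rintro ⟨γ, j⟩
    refine or_congr ⟨?_, ?_⟩ ⟨?_, ?_⟩
    · rintro ⟨i, t, rfl, h1, h2, h3⟩
      obtain ⟨-, -, p3, p4⟩ := per (t + 1) (ν i j)
      obtain ⟨-, -, -, p5⟩ := per t (ν i j)
      have e1 : t + R * ν i j + 1 = t + 1 + R * ν i j := by ring
      have e2 : w (t + R * ν i j + 1) = o i + (l (act (g i) (T j)), (ν i j : ZMod m)) := by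
        simp only [w, e1, p3]
        rw [map_sub] at h1
        have h1' : P (t + 1) = (l z - l (act (g i) (T j)), 0) - o i := by rw [← h1]; abel
        rw [h1']
        ext <;> simp <;> ring
      have e3 := hβ1 i j
      rw [← e2] at e3
      rw [map_sub] at h2 h3
      refine ⟨t + R * ν i j, ?_, ?_, by rw [e3]⟩
      · simp only [mid, ε, e3, p5]; linarith
      · simp only [lo, ε, e3]; rw [e1, p4]; linarith
    · rintro ⟨t, h1, h2, h3⟩
      obtain ⟨rfl, rfl⟩ := Prod.mk.inj h3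
      set c := w (t + 1) with hc
      set i := (β c).1
      set j := (β c).2
      obtain ⟨-, -, p3, p4⟩ := per (t + 1) (-ν i j)
      obtain ⟨-, -, -, p5⟩ := per t (-ν i j)
      have e1 : t + R * -ν i j + 1 = t + 1 + R * -ν i j := by ring
      refine ⟨i, t + R * -ν i j, rfl, ?_, ?_, ?_⟩
      · have h4 := hβ2 c
        have h5 : P (t + 1) = (l z, 0) - c := by simp only [hc, w]; abel
        rw [e1, p3, h5, ← h4, map_sub]
        ext <;> simp <;> ring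
      · simp only [mid, ← hc, ε] at h1
        rw [p5, map_sub]; push_cast; linarith
      · simp only [lo, ← hc, ε] at h2
        rw [e1, p4, map_sub]; push_cast; linarith
    · rintro ⟨e, n, rfl, h1, h2⟩
      obtain ⟨t, rfl, rfl⟩ := H2 e j
      obtain ⟨n', q1, q2⟩ := H1 t
      obtain ⟨p1, p2, p3, p4⟩ := per t (n - n')
      have e2 : w (t + R * (n - n')) =
          (l (z - act (f (ev t)) (T (ce t))) - kk (ev t), (n : ZMod m)) := by
        simp only [w, p3, q2, map_sub]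
        ext <;> simp <;> ring
      rw [map_sub ψ] at h1 h2
      refine ⟨t + R * (n - n'), ?_, ?_, by rw [p1, p2]⟩
      · simp only [lo, e2, p4, q1]; push_cast; linarith
      · simp only [mid, ws, e2, p4, q1, p1]; push_cast; linarith
    · rintro ⟨t, h1, h2, h3⟩
      obtain ⟨rfl, rfl⟩ := Prod.mk.inj h3
      obtain ⟨n, q1, q2⟩ := H1 t
      have e2 : w t = (l (z - act (f (ev t)) (T (ce t))) - kk (ev t), (n : ZMod m)) := by
        simp only [w, q2, map_sub]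
        ext <;> simp <;> ring
      refine ⟨ev t, n, rfl, ?_, ?_⟩
      · simp only [lo, e2, q1] at h1
        rw [map_sub ψ]; linarith
      · simp only [mid, ws, e2, q1] at h2
        rw [map_sub ψ]; linarith
  simp only [key]
  have u1 : ∀ t, mid t ≤ ψ z → ψ z < lo (t + 1) → t = t0 := fun t h1 h2 =>
    huniq t ⟨(lm t).trans h1, h2⟩
  have u2 : ∀ t, lo t ≤ ψ z → ψ z < mid t → t = t0 := fun t h1 h2 =>
    huniq t ⟨h1, h2.trans_le (ml t)⟩
  rcases lt_or_ge (ψ z) (mid t0) with h | h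
  · refine ⟨(f (ev t0), ce t0), Or.inr ⟨t0, ht0.1, h, rfl⟩, ?_⟩
    rintro x (⟨t, h1, h2, rfl⟩ | ⟨t, h1, h2, rfl⟩)
    · obtain rfl := u1 t h1 h2
      exact absurd h (not_lt.2 h1)
    · rw [u2 t h1 h2]
  · refine ⟨(g (β (w (t0 + 1))).1, (β (w (t0 + 1))).2), Or.inl ⟨t0, h, ht0.2, rfl⟩, ?_⟩
    rintro x (⟨t, h1, h2, rfl⟩ | ⟨t, h1, h2, rfl⟩)
    · rw [u1 t h1 h2]
    · obtain rfl := u2 t h1 h2
      exact absurd h2 (not_lt.2 h)

end Pool.Agent.Lib.B5.G
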